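import Pool.Agent.helper57.DH.SpecL

/-!
# Project d2: (MP_5823cb_al), row LEN: affine functions on cells (helper19)
-/

set_option autoImplicit false

open Filter Topology MeasureTheory
open scoped commutatorElement

namespace Pool.Agent.helper90.DH

open Pool.Agent.helper64.D2

theorem LEN_pos (s : ℕ) : (0 : ℝ) < 2 ^ s := by positivity

theorem LEN_mem (s : ℕ) (x : ℝ) : x ∈ cell s (ci s x) := by
  have h1 : ((ci s x : ℤ) : ℝ) ≤ 2 ^ s * x := Int.floor_le _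
  have h2 : 2 ^ s * x < ((ci s x : ℤ) : ℝ) + 1 := Int.lt_floor_add_one _
  constructor
  · rw [div_le_iff₀ (LEN_pos s)]
    linarith
  · rw [lt_div_iff₀ (LEN_pos s)]
    linarith

theorem LEN_ci (s : ℕ) (k : ℤ) (x : ℝ) (hx : x ∈ cell s k) : ci s x = k := by
  have h1 := hx.1
  have h2 := hx.2
  rw [div_le_iff₀ (LEN_pos s)] at h1
  rw [lt_div_iff₀ (LEN_pos s)] at h2
  unfold ci
  rw [Int.floor_eq_iff]
  exact ⟨by linarith, by linarith⟩

theorem LEN_left (s : ℕ) (k : ℤ) : (k : ℝ) / 2 ^ s ∈ cell s k := by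
  refine ⟨le_rfl, ?_⟩
  apply div_lt_div_of_pos_right _ (LEN_pos s)
  linarith

theorem LEN_midm (s : ℕ) (k : ℤ) : ((k : ℝ) + 1 / 2) / 2 ^ s ∈ cell s k := by
  refine ⟨?_, ?_⟩
  · apply div_le_div_of_nonneg_right _ (LEN_pos s).le
    linarith
  · apply div_lt_div_of_pos_right _ (LEN_pos s)
    linarith

/-- affine function on a cell. -/
theorem LEN_aff (s : ℕ) (f : ℝ → ℝ) (hf : PA s f) (k : ℤ) : ∃ F b : ℝ,
    (∀ t ∈ cell s k, f t = F + b * (t - ((k : ℝ) + 1 / 2) / 2 ^ s)) ∧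
    ∀ x, ci s x = k → Bg s f x = |F - b / 2 ^ s / 2| + 2 * |F| := by
  obtain ⟨a, b, h⟩ := hf k
  refine ⟨a + b * (((k : ℝ) + 1 / 2) / 2 ^ s), b, ?_, ?_⟩
  · intro t ht
    rw [h t ht]
    ring
  · intro x hx
    unfold Bg mid
    rw [hx, h _ (LEN_left s k), h _ (LEN_midm s k)]
    congr 2
    ring

theorem LEN_dist (s : ℕ) (k : ℤ) (x : ℝ) (hx : x ∈ cell s k) : |x - ((k : ℝ) + 1 / 2) / 2 ^ s| ≤ 1 / 2 ^ s / 2 := by
  have h1 := hx.1
  have h2 := hx.2
  have e1 : ((k : ℝ) + 1 / 2) / 2 ^ s = (k : ℝ) / 2 ^ s + 1 / 2 ^ s / 2 := by ring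
  have e2 : ((k : ℝ) + 1) / 2 ^ s = (k : ℝ) / 2 ^ s + 1 / 2 ^ s := by ring
  rw [e1, abs_le]
  rw [e2] at h2
  constructor <;> linarith

theorem LEN_int (s : ℕ) (f : ℝ → ℝ) (k : ℤ) (F b : ℝ)
    (h : ∀ t ∈ cell s k, f t = F + b * (t - ((k : ℝ) + 1 / 2) / 2 ^ s)) :
    ∫ t in cell s k, f t ^ 2 = 1 / 2 ^ s * (F ^ 2 + (b / 2 ^ s) ^ 2 / 12) := by
  have hle : (k : ℝ) / 2 ^ s ≤ ((k : ℝ) + 1) / 2 ^ s := by
    apply div_le_div_of_nonneg_right _ (LEN_pos s).le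
    linarith
  have h1 : ∫ t in cell s k, f t ^ 2 = ∫ t in cell s k, (F + b * (t - ((k : ℝ) + 1 / 2) / 2 ^ s)) ^ 2 := by
    apply setIntegral_congr_fun measurableSet_Ico
    intro t ht
    show f t ^ 2 = _
    rw [h t ht]
  rw [h1]
  unfold cell
  rw [integral_Ico_eq_integral_Ioc, ← intervalIntegral.integral_of_le hle]
  have hd : ∀ t ∈ Set.uIcc ((k : ℝ) / 2 ^ s) (((k : ℝ) + 1) / 2 ^ s),
      HasDerivAt (fun t : ℝ => F ^ 2 * (t - ((k : ℝ) + 1 / 2) / 2 ^ s) + F * b * (t - ((k : ℝ) + 1 / 2) / 2 ^ s) ^ 2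
        + b ^ 2 / 3 * (t - ((k : ℝ) + 1 / 2) / 2 ^ s) ^ 3) ((F + b * (t - ((k : ℝ) + 1 / 2) / 2 ^ s)) ^ 2) t := by
    intro t _
    have h2 : HasDerivAt (fun t : ℝ => t - ((k : ℝ) + 1 / 2) / 2 ^ s) 1 t := (hasDerivAt_id t).sub_const _
    have h3 := ((h2.const_mul (F ^ 2)).add ((h2.pow 2).const_mul (F * b))).add ((h2.pow 3).const_mul (b ^ 2 / 3))
    refine HasDerivAt.congr_deriv h3 ?_
    push_cast
    ring
  have hc : Continuous (fun t : ℝ => (F + b * (t - ((k : ℝ) + 1 / 2) / 2 ^ s)) ^ 2) := by fun_prop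
  rw [intervalIntegral.integral_eq_sub_of_hasDerivAt hd (hc.intervalIntegrable _ _)]
  have e1 : (k : ℝ) / 2 ^ s - ((k : ℝ) + 1 / 2) / 2 ^ s = -(1 / 2 ^ s / 2) := by ring
  have e2 : ((k : ℝ) + 1) / 2 ^ s - ((k : ℝ) + 1 / 2) / 2 ^ s = 1 / 2 ^ s / 2 := by ring
  rw [e1, e2]
  ring

theorem LEN_num (F B : ℝ) : (|F - B / 2| + 2 * |F|) ^ 2 ≤ 36 * (F ^ 2 + B ^ 2 / 12) := by
  have h1 : |F - B / 2| ≤ |F| + |B| / 2 := by
    calc |F - B / 2| ≤ |F| + |B / 2| := abs_sub _ _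
      _ = |F| + |B| / 2 := by rw [abs_div, abs_two]
  have h2 : |F - B / 2| + 2 * |F| ≤ 3 * |F| + |B| / 2 := by linarith
  have h3 : 0 ≤ |F - B / 2| + 2 * |F| := by positivity
  have h4 : (|F - B / 2| + 2 * |F|) ^ 2 ≤ (3 * |F| + |B| / 2) ^ 2 := by
    apply pow_le_pow_left₀ h3 h2
  have h5 : |F| ^ 2 = F ^ 2 := sq_abs F
  have h6 : |B| ^ 2 = B ^ 2 := sq_abs B
  nlinarith [sq_nonneg (|F| - |B|), sq_nonneg F, sq_nonneg B, abs_nonneg F, abs_nonneg B]

theorem LEN_pt (s : ℕ) (f : ℝ → ℝ) (hf : PA s f) (x : ℝ) :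
    Bg s f x ^ 2 ≤ 36 * 2 ^ s * ∫ t in cell s (ci s x), f t ^ 2 := by
  obtain ⟨F, b, h1, h2⟩ := LEN_aff s f hf (ci s x)
  rw [LEN_int s f (ci s x) F b h1, h2 x rfl]
  have h3 := LEN_num F (b / 2 ^ s)
  calc (|F - b / 2 ^ s / 2| + 2 * |F|) ^ 2 ≤ 36 * (F ^ 2 + (b / 2 ^ s) ^ 2 / 12) := h3
    _ = 36 * 2 ^ s * (1 / 2 ^ s * (F ^ 2 + (b / 2 ^ s) ^ 2 / 12)) := by
        have := (LEN_pos s).ne'
        field_simp

theorem LEN_BgPA (s : ℕ) (f : ℝ → ℝ) : PA s (Bg s f) := by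
  intro k
  refine ⟨|f ((k : ℝ) / 2 ^ s)| + 2 * |f (((k : ℝ) + 1 / 2) / 2 ^ s)|, 0, ?_⟩
  intro x hx
  unfold Bg mid
  rw [LEN_ci s k x hx]
  ring

theorem LEN_Bgz (s : ℕ) (f : ℝ → ℝ) (hf : PA s f) (hz : ∀ x, x ∉ Set.Icc (0 : ℝ) 1 → f x = 0) :
    ∀ x, x ∉ Set.Icc (0 : ℝ) 1 → Bg s f x = 0 := by
  intro x hx
  have hp := LEN_pos s
  have hmem := LEN_mem s x
  unfold Bg mid
  rcases lt_or_ge x 0 with h0 | h0
  · -- negative
    have h1 : ci s x < 0 := by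
      unfold ci
      rw [Int.floor_lt]
      push_cast
      nlinarith
    have h2 : (ci s x : ℝ) ≤ -1 := by
      have : ci s x ≤ -1 := by omega
      exact_mod_cast this
    have h3 : (ci s x : ℝ) / 2 ^ s < 0 := div_neg_of_neg_of_pos (by linarith) hp
    have h4 : ((ci s x : ℝ) + 1 / 2) / 2 ^ s < 0 := div_neg_of_neg_of_pos (by linarith) hp
    rw [hz _ (fun h => absurd h.1 (not_le.2 h3)), hz _ (fun h => absurd h.1 (not_le.2 h4))]
    simp
  · have h1' : 1 < x := by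
      by_contra h
      exact hx ⟨h0, not_lt.1 h⟩
    have h1 : (2 ^ s : ℤ) ≤ ci s x := by
      unfold ci
      rw [Int.le_floor]
      push_cast
      nlinarith
    have h2 : (2 ^ s : ℝ) ≤ (ci s x : ℝ) := by exact_mod_cast h1
    obtain ⟨F, b, h3, -⟩ := LEN_aff s f hf (ci s x)
    have hm : f (((ci s x : ℝ) + 1 / 2) / 2 ^ s) = 0 := by
      apply hz
      intro h
      have h5 : ((ci s x : ℝ) + 1 / 2) / 2 ^ s ≤ 1 := h.2
      rw [div_le_one hp] at h5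
      linarith
    have hm'c : ((ci s x : ℝ) + 1 / 4) / 2 ^ s ∈ cell s (ci s x) := by
      refine ⟨?_, ?_⟩
      · apply div_le_div_of_nonneg_right _ hp.le
        linarith
      · apply div_lt_div_of_pos_right _ hp
        linarith
    have hm' : f (((ci s x : ℝ) + 1 / 4) / 2 ^ s) = 0 := by
      apply hz
      intro h
      have h5 : ((ci s x : ℝ) + 1 / 4) / 2 ^ s ≤ 1 := h.2
      rw [div_le_one hp] at h5
      linarith
    have e1 := h3 _ (LEN_midm s (ci s x))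
    rw [hm] at e1
    have e2 := h3 _ hm'c
    rw [hm'] at e2
    have e3 := h3 _ (LEN_left s (ci s x))
    have e4 : f ((ci s x : ℝ) / 2 ^ s) = 0 := by
      have h6 : F = 0 := by
        have : F + b * (((ci s x : ℝ) + 1 / 2) / 2 ^ s - ((ci s x : ℝ) + 1 / 2) / 2 ^ s) = F := by ring
        linarith
      have h7 : b * (1 / 2 ^ s) = 0 := by
        have : F + b * (((ci s x : ℝ) + 1 / 4) / 2 ^ s - ((ci s x : ℝ) + 1 / 2) / 2 ^ s) = F - b * (1 / 2 ^ s) / 4 := by ring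
        linarith
      rw [e3]
      have : F + b * ((ci s x : ℝ) / 2 ^ s - ((ci s x : ℝ) + 1 / 2) / 2 ^ s) = F - b * (1 / 2 ^ s) / 2 := by ring
      rw [this, h6, h7]
      ring
    rw [e4, hm]
    simp

theorem LEN_GrMeas (s : ℕ) (ρ : ℝ) : MeasurableSet (Gr s ρ) := by
  have h : Gr s ρ = ⋃ k : ℤ, {x : ℝ | |x - (k : ℝ) / 2 ^ s| ≤ ρ} := by
    ext x
    simp only [Gr, Set.mem_setOf_eq, Set.mem_iUnion]
  rw [h]
  apply MeasurableSet.iUnion
  intro k
  apply IsClosed.measurableSet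
  exact isClosed_le (by fun_prop) continuous_const

theorem LEN_GrVol (s : ℕ) (ρ : ℝ) (hρ : 0 ≤ ρ) (k : ℤ) : volume.real (Gr s ρ ∩ cell s k) ≤ 2 * ρ := by
  have hsub : Gr s ρ ∩ cell s k ⊆ Set.Icc ((k : ℝ) / 2 ^ s) ((k : ℝ) / 2 ^ s + ρ) ∪
      Set.Icc (((k : ℝ) + 1) / 2 ^ s - ρ) (((k : ℝ) + 1) / 2 ^ s) := by
    rintro x ⟨⟨j, hj⟩, hx⟩
    rw [abs_le] at hj
    rcases le_or_gt j k with hjk | hjk
    · left
      refine ⟨hx.1, ?_⟩
      have h1 : (j : ℝ) / 2 ^ s ≤ (k : ℝ) / 2 ^ s := by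
        apply div_le_div_of_nonneg_right _ (LEN_pos s).le
        exact_mod_cast hjk
      linarith [hj.2]
    · right
      refine ⟨?_, hx.2.le⟩
      have h1 : ((k : ℝ) + 1) / 2 ^ s ≤ (j : ℝ) / 2 ^ s := by
        apply div_le_div_of_nonneg_right _ (LEN_pos s).le
        have : k + 1 ≤ j := hjk
        exact_mod_cast this
      linarith [hj.1]
  have hfin : volume (Set.Icc ((k : ℝ) / 2 ^ s) ((k : ℝ) / 2 ^ s + ρ) ∪
      Set.Icc (((k : ℝ) + 1) / 2 ^ s - ρ) (((k : ℝ) + 1) / 2 ^ s)) ≠ ⊤ := by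
    apply (measure_union_lt_top _ _).ne
    · exact measure_Icc_lt_top
    · exact measure_Icc_lt_top
  calc volume.real (Gr s ρ ∩ cell s k)
      ≤ volume.real (Set.Icc ((k : ℝ) / 2 ^ s) ((k : ℝ) / 2 ^ s + ρ) ∪
      Set.Icc (((k : ℝ) + 1) / 2 ^ s - ρ) (((k : ℝ) + 1) / 2 ^ s)) := measureReal_mono hsub hfin
    _ ≤ volume.real (Set.Icc ((k : ℝ) / 2 ^ s) ((k : ℝ) / 2 ^ s + ρ)) +
      volume.real (Set.Icc (((k : ℝ) + 1) / 2 ^ s - ρ) (((k : ℝ) + 1) / 2 ^ s)) := measureReal_union_le _ _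
    _ = 2 * ρ := by
        rw [Real.volume_real_Icc_of_le (by linarith), Real.volume_real_Icc_of_le (by linarith)]
        ring

theorem LEN_cellVol (s : ℕ) (k : ℤ) : volume.real (cell s k) = 1 / 2 ^ s := by
  unfold cell
  rw [Real.volume_real_Ico_of_le]
  · ring
  · apply div_le_div_of_nonneg_right _ (LEN_pos s).le
    linarith

theorem LEN (hLBM : LBM_stmt) (hLCE : LCE_stmt) : LEN_stmt := by
  obtain ⟨hB1, hB2, hB3, -, -, -⟩ := hLBM
  obtain ⟨hC1, -⟩ := hLCE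
  intro s f hf
  have hp := LEN_pos s
  refine ⟨?_, ?_, ?_, ?_⟩
  · intro x
    obtain ⟨F, b, h1, h2⟩ := LEN_aff s f hf (ci s x)
    rw [h2 x rfl, h1 x (LEN_mem s x)]
    have h3 := LEN_dist s (ci s x) x (LEN_mem s x)
    have h4 : |b * (x - ((ci s x : ℝ) + 1 / 2) / 2 ^ s)| ≤ |b / 2 ^ s / 2| := by
      rw [abs_mul]
      calc |b| * |x - ((ci s x : ℝ) + 1 / 2) / 2 ^ s| ≤ |b| * (1 / 2 ^ s / 2) := mul_le_mul_of_nonneg_left h3 (abs_nonneg b)
        _ = |b / 2 ^ s / 2| := by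
          rw [abs_div, abs_div, abs_two, abs_of_pos hp]
          ring
    have h5 : |b / 2 ^ s / 2| ≤ |F - b / 2 ^ s / 2| + |F| := by
      calc |b / 2 ^ s / 2| = |F - (F - b / 2 ^ s / 2)| := by congr 1; ring
        _ ≤ |F| + |F - b / 2 ^ s / 2| := abs_sub _ _
        _ = |F - b / 2 ^ s / 2| + |F| := add_comm _ _
    calc |F + b * (x - ((ci s x : ℝ) + 1 / 2) / 2 ^ s)| ≤ |F| + |b * (x - ((ci s x : ℝ) + 1 / 2) / 2 ^ s)| := abs_add_le _ _
      _ ≤ |F - b / 2 ^ s / 2| + 2 * |F| := by linarith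
  · intro x z hxz
    obtain ⟨F, b, h1, h2⟩ := LEN_aff s f hf (ci s x)
    have hz : z ∈ cell s (ci s x) := by rw [hxz]; exact LEN_mem s z
    rw [h2 x rfl, h1 x (LEN_mem s x), h1 z hz]
    have e1 : F + b * (x - ((ci s x : ℝ) + 1 / 2) / 2 ^ s) - (F + b * (z - ((ci s x : ℝ) + 1 / 2) / 2 ^ s)) = b * (x - z) := by ring
    rw [e1, abs_mul]
    apply mul_le_mul_of_nonneg_right _ (abs_nonneg _)
    have h5 : |b / 2 ^ s / 2| ≤ |F - b / 2 ^ s / 2| + |F| := by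
      calc |b / 2 ^ s / 2| = |F - (F - b / 2 ^ s / 2)| := by congr 1; ring
        _ ≤ |F| + |F - b / 2 ^ s / 2| := abs_sub _ _
        _ = |F - b / 2 ^ s / 2| + |F| := add_comm _ _
    rw [abs_div, abs_div, abs_two, abs_of_pos hp] at h5
    have h6 : |b| = 2 * 2 ^ s * (|b| / 2 ^ s / 2) := by
      field_simp
    have h7 : |b| / 2 ^ s / 2 ≤ |F - b / 2 ^ s / 2| + 2 * |F| := by linarith [abs_nonneg F]
    calc |b| = 2 * 2 ^ s * (|b| / 2 ^ s / 2) := h6
      _ ≤ 2 * 2 ^ s * (|F - b / 2 ^ s / 2| + 2 * |F|) := mul_le_mul_of_nonneg_left h7 (by positivity)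
  · intro hBM
    have hBg : BM (Bg s f) := hB3 s (Bg s f) (LEN_BgPA s f) (LEN_Bgz s f hf hBM.2.2)
    have hBg2 : BM (fun x => Bg s f x ^ 2) := by
      have h := (hB1 _ _ hBg hBg).2.2
      have e : (fun x => Bg s f x ^ 2) = fun x => Bg s f x * Bg s f x := by
        funext x
        ring
      rw [e]
      exact h
    have hf2 : BM (fun x => f x ^ 2) := by
      have h := (hB1 _ _ hBM hBM).2.2
      have e : (fun x => f x ^ 2) = fun x => f x * f x := by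
        funext x
        ring
      rw [e]
      exact h
    have hcell0 : ∀ k : ℤ, 0 ≤ ∫ t in cell s k, f t ^ 2 := fun k =>
      integral_nonneg fun t => sq_nonneg _
    -- value of Bg on a cell
    have hconst : ∀ k : ℤ, ∃ β : ℝ, (∀ x ∈ cell s k, Bg s f x = β) ∧ β ^ 2 ≤ 36 * 2 ^ s * ∫ t in cell s k, f t ^ 2 := by
      intro k
      obtain ⟨F, b, h1, h2⟩ := LEN_aff s f hf k
      refine ⟨|F - b / 2 ^ s / 2| + 2 * |F|, fun x hx => h2 x (LEN_ci s k x hx), ?_⟩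
      have h3 := LEN_pt s f hf ((k : ℝ) / 2 ^ s)
      have h4 : ci s ((k : ℝ) / 2 ^ s) = k := LEN_ci s k _ (LEN_left s k)
      rw [h2 _ h4, h4] at h3
      exact h3
    refine ⟨hBg, LEN_pt s f hf, ?_, ?_⟩
    · unfold nsq
      rw [← integral_const_mul]
      apply hC1 s (fun x => Bg s f x ^ 2) (fun x => 36 * f x ^ 2) hBg2 ((hB2 36 _ hf2).1)
      intro k
      obtain ⟨β, hβ1, hβ2⟩ := hconst k
      have h1 : ∫ t in cell s k, Bg s f t ^ 2 = ∫ t in cell s k, β ^ 2 := by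
        apply setIntegral_congr_fun measurableSet_Ico
        intro t ht
        show Bg s f t ^ 2 = β ^ 2
        rw [hβ1 t ht]
      rw [h1, setIntegral_const, LEN_cellVol, smul_eq_mul, integral_const_mul]
      calc 1 / 2 ^ s * β ^ 2 ≤ 1 / 2 ^ s * (36 * 2 ^ s * ∫ t in cell s k, f t ^ 2) :=
            mul_le_mul_of_nonneg_left hβ2 (by positivity)
        _ = 36 * ∫ t in cell s k, f t ^ 2 := by field_simp
    · intro ρ hρ
      have hGm := LEN_GrMeas s ρ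
      have hBGi : BM ((Gr s ρ).indicator (fun z => Bg s f z ^ 2)) := by
        obtain ⟨hm, ⟨M, hM⟩, hz⟩ := hBg2
        refine ⟨hm.indicator hGm, ⟨M, ?_⟩, ?_⟩
        · intro x
          by_cases hx : x ∈ Gr s ρ
          · rw [Set.indicator_of_mem hx]
            exact hM x
          · rw [Set.indicator_of_notMem hx, abs_zero]
            exact (abs_nonneg _).trans (hM x)
        · intro x hx
          by_cases hxG : x ∈ Gr s ρ
          · rw [Set.indicator_of_mem hxG]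
            exact hz x hx
          · rw [Set.indicator_of_notMem hxG]
      unfold nsq
      rw [← integral_const_mul]
      apply hC1 s ((Gr s ρ).indicator (fun z => Bg s f z ^ 2)) (fun x => 72 * ρ * 2 ^ s * f x ^ 2) hBGi ((hB2 _ _ hf2).1)
      intro k
      obtain ⟨β, hβ1, hβ2⟩ := hconst k
      have h1 : ∫ t in cell s k, (Gr s ρ).indicator (fun z => Bg s f z ^ 2) t = ∫ t in cell s k, (Gr s ρ).indicator (fun _ => β ^ 2) t := by
        apply setIntegral_congr_fun measurableSet_Ico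
        intro t ht
        show (Gr s ρ).indicator (fun z => Bg s f z ^ 2) t = (Gr s ρ).indicator (fun _ => β ^ 2) t
        by_cases hx : t ∈ Gr s ρ
        · rw [Set.indicator_of_mem hx, Set.indicator_of_mem hx, hβ1 t ht]
        · rw [Set.indicator_of_notMem hx, Set.indicator_of_notMem hx]
      rw [h1, integral_indicator hGm, Measure.restrict_restrict hGm, setIntegral_const, smul_eq_mul, integral_const_mul]
      have hv := LEN_GrVol s ρ hρ k
      calc volume.real (Gr s ρ ∩ cell s k) * β ^ 2 ≤ (2 * ρ) * (36 * 2 ^ s * ∫ t in cell s k, f t ^ 2) :=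
            mul_le_mul hv hβ2 (sq_nonneg _) (by positivity)
        _ = 72 * ρ * 2 ^ s * ∫ t in cell s k, f t ^ 2 := by ring
  · intro B hB
    refine ⟨?_, ?_⟩
    · intro x
      unfold Bg
      linarith [hB ((ci s x : ℝ) / 2 ^ s), hB (mid s x)]
    · intro x z hxz
      obtain ⟨F, b, h1, -⟩ := LEN_aff s f hf (ci s x)
      have hz : z ∈ cell s (ci s x) := by rw [hxz]; exact LEN_mem s z
      rw [h1 x (LEN_mem s x), h1 z hz]
      have e1 : F + b * (x - ((ci s x : ℝ) + 1 / 2) / 2 ^ s) - (F + b * (z - ((ci s x : ℝ) + 1 / 2) / 2 ^ s)) = b * (x - z) := by ring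
      rw [e1, abs_mul]
      apply mul_le_mul_of_nonneg_right _ (abs_nonneg _)
      -- the slope
      have key : ∀ θ : ℝ, 0 ≤ θ → θ < 1 → |b| * (θ / 2 ^ s) ≤ 2 * B := by
        intro θ h0 hθ
        have hmem : ((ci s x : ℝ) + θ) / 2 ^ s ∈ cell s (ci s x) := by
          refine ⟨?_, ?_⟩
          · apply div_le_div_of_nonneg_right _ hp.le
            linarith
          · apply div_lt_div_of_pos_right _ hp
            linarith
        have h5 := h1 _ hmem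
        have h6 := h1 _ (LEN_left s (ci s x))
        have h7 : f (((ci s x : ℝ) + θ) / 2 ^ s) - f ((ci s x : ℝ) / 2 ^ s) = b * (θ / 2 ^ s) := by
          rw [h5, h6]
          ring
        have h8 : |b * (θ / 2 ^ s)| ≤ 2 * B := by
          rw [← h7]
          calc |f (((ci s x : ℝ) + θ) / 2 ^ s) - f ((ci s x : ℝ) / 2 ^ s)|
              ≤ |f (((ci s x : ℝ) + θ) / 2 ^ s)| + |f ((ci s x : ℝ) / 2 ^ s)| := abs_sub _ _
            _ ≤ 2 * B := by linarith [hB (((ci s x : ℝ) + θ) / 2 ^ s), hB ((ci s x : ℝ) / 2 ^ s)]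
        rwa [abs_mul, abs_of_nonneg (by positivity : (0 : ℝ) ≤ θ / 2 ^ s)] at h8
      have hlim : |b| * (1 / 2 ^ s) ≤ 2 * B := by
        apply le_of_forall_pos_lt_add
        intro δ hδ
        -- choose θ close to one
        by_cases hb : |b| * (1 / 2 ^ s) ≤ δ / 2
        · have hB0 : 0 ≤ B := (abs_nonneg _).trans (hB 0)
          linarith
        · rw [not_le] at hb
          have hbp : 0 < |b| * (1 / 2 ^ s) := by linarith
          have hθ0 : 0 ≤ 1 - δ / 2 / (|b| * (1 / 2 ^ s)) := by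
            rw [sub_nonneg, div_le_one hbp]
            exact hb.le
          have hθ1 : 1 - δ / 2 / (|b| * (1 / 2 ^ s)) < 1 := by
            have : 0 < δ / 2 / (|b| * (1 / 2 ^ s)) := by positivity
            linarith
          have h9 := key _ hθ0 hθ1
          have h10 : |b| * ((1 - δ / 2 / (|b| * (1 / 2 ^ s))) / 2 ^ s) = |b| * (1 / 2 ^ s) - δ / 2 := by
            have : |b| * ((1 - δ / 2 / (|b| * (1 / 2 ^ s))) / 2 ^ s) = (|b| * (1 / 2 ^ s)) * (1 - δ / 2 / (|b| * (1 / 2 ^ s))) := by ring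
            rw [this, mul_sub, mul_one, mul_div_cancel₀ _ hbp.ne']
          rw [h10] at h9
          linarith
      calc |b| = 2 ^ s * (|b| * (1 / 2 ^ s)) := by field_simp
        _ ≤ 2 ^ s * (2 * B) := mul_le_mul_of_nonneg_left hlim hp.le
        _ = 2 * 2 ^ s * B := by ring

end Pool.Agent.helper90.DH
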